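import Mathlib
set_option autoImplicit false

/-! Positive groups on ordered Hilbert spaces: definitions. -/

namespace Pool.Agent.Q199.PG

open Filter Topology Complex

universe u v

/-- A closed, normal, generating cone `K` in a real Hilbert space `H`
(the order is `x ≤ y ↔ y - x ∈ K`). -/
structure IsOrderCone {H : Type u} [NormedAddCommGroup H] [InnerProductSpace ℝ H]
    (K : Set H) : Prop where
  closed : IsClosed K
  zero_mem : (0 : H) ∈ K
  add_mem : ∀ x ∈ K, ∀ y ∈ K, x + y ∈ K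
  smul_mem : ∀ a : ℝ, 0 ≤ a → ∀ x ∈ K, a • x ∈ K
  normal : ∃ c : ℝ, 0 < c ∧ ∀ x y : H, x ∈ K → y - x ∈ K → ‖x‖ ≤ c * ‖y‖
  generating : ∀ z : H, ∃ x ∈ K, ∃ y ∈ K, z = x - y

/-- `ι : H → E` exhibits the complex Hilbert space `E` as the complexification `H ⊕ iH`
of the real Hilbert space `H`. -/
structure IsComplexification {H : Type u} [NormedAddCommGroup H] [InnerProductSpace ℝ H]
    {E : Type v} [NormedAddCommGroup E] [InnerProductSpace ℂ E] (ι : H →ₗ[ℝ] E) : Prop where
  inner_eq : ∀ x y : H, inner ℂ (ι x) (ι y) = ((inner ℝ x y : ℝ) : ℂ)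
  exists_eq : ∀ u : E, ∃ x y : H, u = ι x + Complex.I • ι y

/-- A strongly continuous one-parameter group of bounded operators on `E`. -/
structure IsGroup {E : Type v} [NormedAddCommGroup E] [NormedSpace ℂ E]
    (T : ℝ → E →L[ℂ] E) : Prop where
  zero : T 0 = 1
  add : ∀ s t : ℝ, T (s + t) = T s * T t
  cont : ∀ u : E, Continuous (fun t : ℝ => T t u)

/-- The operator `S` on the complexification `E` of `H` is positive: `S(K) ⊆ K`. -/
def IsPositive {H : Type u} [NormedAddCommGroup H] [InnerProductSpace ℝ H]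
    {E : Type v} [NormedAddCommGroup E] [InnerProductSpace ℂ E] (K : Set H) (ι : H →ₗ[ℝ] E)
    (S : E →L[ℂ] E) : Prop :=
  ∀ x ∈ K, ∃ y ∈ K, S (ι x) = ι y

/-- The graph of the generator `A`: the pairs `(u, A u)` with `u` in the domain of `A`, that is,
such that `(T t u - u) / t` converges to `A u` as `t → 0`. -/
def genGraph {E : Type v} [NormedAddCommGroup E] [NormedSpace ℂ E]
    (T : ℝ → E →L[ℂ] E) : Set (E × E) :=
  {p | Tendsto (fun t : ℝ => ((t : ℂ)⁻¹) • (T t p.1 - p.1)) (𝓝[≠] 0) (𝓝 p.2)}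

/-- `z` is in the resolvent set of the generator `A` of `T`: `z - A` maps the domain of `A`
bijectively onto `E`, with a bounded inverse `R`. -/
def InResolventSet {E : Type v} [NormedAddCommGroup E] [NormedSpace ℂ E]
    (T : ℝ → E →L[ℂ] E) (z : ℂ) : Prop :=
  ∃ R : E →L[ℂ] E, (∀ u : E, (R u, z • R u - u) ∈ genGraph T) ∧
    ∀ p ∈ genGraph T, R (z • p.1 - p.2) = p.1

/-- The spectrum of the generator of `T`. -/
def genSpectrum {E : Type v} [NormedAddCommGroup E] [NormedSpace ℂ E]
    (T : ℝ → E →L[ℂ] E) : Set ℂ :=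
  {z | ¬ InResolventSet T z}

end Pool.Agent.Q199.PG
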