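import Mathlib
import Pool.Agent.Q199.PG.Defs
set_option autoImplicit false

/-! Growth bound of a one-parameter group. -/

namespace Pool.Agent.Q199.PG

open Filter Topology Complex

universe v

variable {E : Type v} [NormedAddCommGroup E] [NormedSpace ℂ E] [CompleteSpace E]
variable {T : ℝ → E →L[ℂ] E}

lemma exists_bound (hT : IsGroup T) (a b : ℝ) :
    ∃ M : ℝ, 1 ≤ M ∧ ∀ t ∈ Set.Icc a b, ‖T t‖ ≤ M := by
  have key : ∃ C', ∀ i : Set.Icc a b, ‖T i.1‖ ≤ C' := by
    apply banach_steinhaus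
    intro x
    have hc : ContinuousOn (fun t : ℝ => ‖T t x‖) (Set.Icc a b) := (hT.cont x).norm.continuousOn
    obtain ⟨C, hC⟩ := (isCompact_Icc.bddAbove_image hc)
    refine ⟨C, fun i => hC ⟨i.1, i.2, rfl⟩⟩
  obtain ⟨C, hC⟩ := key
  exact ⟨max 1 C, le_max_left _ _, fun t ht => (hC ⟨t, ht⟩).trans (le_max_right _ _)⟩

lemma mul_neg (hT : IsGroup T) (t : ℝ) : T t * T (-t) = 1 := by
  rw [← hT.add, add_neg_cancel, hT.zero]

lemma norm_pos [Nontrivial E] (hT : IsGroup T) (t : ℝ) : 0 < ‖T t‖ := by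
  rw [norm_pos_iff]
  intro h
  have := mul_neg hT t
  rw [h, zero_mul] at this
  exact zero_ne_one this

lemma norm_add_le (hT : IsGroup T) (s t : ℝ) : ‖T (s + t)‖ ≤ ‖T s‖ * ‖T t‖ := by
  rw [hT.add]; exact norm_mul_le _ _

lemma norm_nat_mul_le [Nontrivial E] (hT : IsGroup T) (t : ℝ) (n : ℕ) : ‖T (n * t)‖ ≤ ‖T t‖ ^ n := by
  induction n with
  | zero => simp [hT.zero]
  | succ n ih =>
    have : ((n + 1 : ℕ) : ℝ) * t = n * t + t := by push_cast; ring
    rw [this, pow_succ]
    exact (norm_add_le hT _ _).trans (mul_le_mul_of_nonneg_right ih (norm_nonneg _))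

lemma subadd [Nontrivial E] (hT : IsGroup T) : Subadditive (fun n : ℕ => Real.log ‖T n‖) := by
  intro m n
  have h := norm_add_le hT (m : ℝ) n
  have : ((m + n : ℕ) : ℝ) = m + n := by push_cast; ring
  simp only [this]
  rw [← Real.log_mul (norm_pos hT _).ne' (norm_pos hT _).ne']
  exact Real.log_le_log (norm_pos hT _) h

lemma bdd [Nontrivial E] (hT : IsGroup T) :
    BddBelow (Set.range fun n : ℕ => Real.log ‖T n‖ / n) := by
  refine ⟨min 0 (-Real.log ‖T (-1)‖), ?_⟩
  rintro _ ⟨n, rfl⟩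
  rcases Nat.eq_zero_or_pos n with h | h
  · subst h; simp
  · apply (min_le_right _ _).trans
    rw [le_div_iff₀ (by exact_mod_cast h)]
    have h1 : (1 : ℝ) ≤ ‖T n‖ * ‖T (-n : ℝ)‖ := by
      have := mul_neg hT (n : ℝ)
      have h2 := norm_mul_le (T n) (T (-n : ℝ))
      rw [this, norm_one] at h2
      exact h2
    have h2 : ‖T (-n : ℝ)‖ ≤ ‖T (-1)‖ ^ n := by
      have := norm_nat_mul_le hT (-1) n
      simpa using this
    have h3 := Real.log_le_log one_pos h1
    rw [Real.log_one, Real.log_mul (norm_pos hT _).ne' (norm_pos hT _).ne'] at h3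
    have h4 := Real.log_le_log (norm_pos hT _) h2
    rw [Real.log_pow] at h4
    nlinarith

/-- The growth bound. -/
noncomputable def om [Nontrivial E] (hT : IsGroup T) : ℝ := (subadd hT).lim

lemma exp_om_le [Nontrivial E] (hT : IsGroup T) (n : ℕ) : Real.exp (om hT * n) ≤ ‖T n‖ := by
  rcases Nat.eq_zero_or_pos n with h | h
  · subst h; simp [hT.zero]
  · have := (subadd hT).lim_le_div (bdd hT) h.ne'
    change om hT ≤ _ at this
    rw [le_div_iff₀ (by exact_mod_cast h)] at this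
    rw [← Real.log_le_log_iff (Real.exp_pos _) (norm_pos hT _), Real.log_exp]
    exact this

lemma growth_le [Nontrivial E] (hT : IsGroup T) {l : ℝ} (hl : om hT < l) :
    ∃ M : ℝ, 0 < M ∧ ∀ t, 0 ≤ t → ‖T t‖ ≤ M * Real.exp (l * t) := by
  have h1 := (subadd hT).tendsto_lim (bdd hT)
  change Tendsto _ _ (𝓝 (om hT)) at h1
  obtain ⟨N, hN1, hN2⟩ := ((h1.eventually (gt_mem_nhds hl)).and (eventually_gt_atTop 0)).exists
  have hN0 : (0 : ℝ) < N := by exact_mod_cast hN2
  rw [div_lt_iff₀ hN0] at hN1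
  have hTN : ‖T N‖ ≤ Real.exp (l * N) := by
    rw [← Real.log_le_log_iff (norm_pos hT _) (Real.exp_pos _), Real.log_exp]
    exact hN1.le
  obtain ⟨M, hM1, hM⟩ := exists_bound hT 0 N
  refine ⟨M * Real.exp (|l| * N), by positivity, ?_⟩
  intro t ht
  set k : ℕ := ⌊t / N⌋₊ with hk
  have hk1 : (k : ℝ) * N ≤ t := by
    have := Nat.floor_le (div_nonneg ht hN0.le)
    rwa [le_div_iff₀ hN0] at this
  have hk2 : t < (k + 1) * N := by
    have := Nat.lt_floor_add_one (t / N)
    rwa [div_lt_iff₀ hN0] at this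
  have e : t = k * N + (t - k * N) := by ring
  calc ‖T t‖ = ‖T (k * N + (t - k * N))‖ := by rw [← e]
    _ ≤ ‖T (k * N)‖ * ‖T (t - k * N)‖ := norm_add_le hT _ _
    _ ≤ (Real.exp (l * N)) ^ k * M := by
        apply mul_le_mul _ (hM _ ⟨by linarith, by nlinarith⟩) (norm_nonneg _) (by positivity)
        exact (norm_nat_mul_le hT _ k).trans (pow_le_pow_left₀ (norm_nonneg _) hTN k)
    _ = M * Real.exp (l * (k * N)) := by
        rw [← Real.exp_nat_mul, mul_comm]
        congr 2; ring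
    _ ≤ M * Real.exp (|l| * N + l * t) := by
        apply mul_le_mul_of_nonneg_left _ (by linarith)
        apply Real.exp_le_exp.mpr
        have h5 : l * (k * N) - l * t = l * (k * N - t) := by ring
        have h6 : |l * (k * N - t)| ≤ |l| * N := by
          rw [abs_mul]
          apply mul_le_mul_of_nonneg_left _ (abs_nonneg _)
          rw [abs_le]; constructor <;> nlinarith
        have := le_abs_self (l * (k * N - t))
        linarith
    _ = M * Real.exp (|l| * N) * Real.exp (l * t) := by rw [Real.exp_add]; ring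

lemma growth_ge [Nontrivial E] (hT : IsGroup T) :
    ∃ c : ℝ, 0 < c ∧ ∀ t, 0 ≤ t → c * Real.exp (om hT * t) ≤ ‖T t‖ := by
  obtain ⟨M, hM1, hM⟩ := exists_bound hT 0 1
  refine ⟨Real.exp (-|om hT|) / M, by positivity, ?_⟩
  intro t ht
  set n := ⌈t⌉₊
  have h1 : t ≤ n := Nat.le_ceil t
  have h2 : (n : ℝ) < t + 1 := Nat.ceil_lt_add_one ht
  have h3 := exp_om_le hT n
  have h4 : ‖T n‖ ≤ M * ‖T t‖ := by
    have e : (n : ℝ) = (n - t) + t := by ring
    calc ‖T n‖ = ‖T ((n - t) + t)‖ := by rw [← e]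
      _ ≤ ‖T (n - t)‖ * ‖T t‖ := norm_add_le hT _ _
      _ ≤ M * ‖T t‖ := mul_le_mul_of_nonneg_right (hM _ ⟨by linarith, by linarith⟩) (norm_nonneg _)
  have h5 : Real.exp (-|om hT|) * Real.exp (om hT * t) ≤ Real.exp (om hT * n) := by
    rw [← Real.exp_add]
    apply Real.exp_le_exp.mpr
    have h6 : |om hT * (n - t)| ≤ |om hT| := by
      rw [abs_mul]
      have : |(n : ℝ) - t| ≤ 1 := by rw [abs_le]; constructor <;> linarith
      nlinarith [abs_nonneg (om hT)]
    have := neg_abs_le (om hT * (n - t))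
    nlinarith
  have hM0 : 0 < M := by linarith
  rw [div_mul_eq_mul_div, div_le_iff₀ hM0]
  calc _ ≤ _ := h5
    _ ≤ _ := h3
    _ ≤ M * ‖T t‖ := h4
    _ = _ := mul_comm _ _

lemma tendsto_growth [Nontrivial E] (hT : IsGroup T) :
    Tendsto (fun t : ℝ => t⁻¹ * Real.log ‖T t‖) atTop (𝓝 (om hT)) := by
  obtain ⟨c, hc, hc2⟩ := growth_ge hT
  rw [Metric.tendsto_atTop]
  intro ε hε
  obtain ⟨M, hM, hM2⟩ := growth_le hT (l := om hT + ε / 2) (by linarith)
  refine ⟨max 1 (2 * (|Real.log M| + |Real.log c| + 1) / ε), fun t ht => ?_⟩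
  have ht1 : 1 ≤ t := (le_max_left _ _).trans ht
  have ht0 : 0 < t := by linarith
  have ht2 : 2 * (|Real.log M| + |Real.log c| + 1) ≤ t * ε := by
    have := (le_max_right _ _).trans ht
    rwa [div_le_iff₀ hε] at this
  have h1 := Real.log_le_log (norm_pos hT _) (hM2 t ht0.le)
  have h2 := Real.log_le_log (by positivity) (hc2 t ht0.le)
  rw [Real.log_mul hM.ne' (Real.exp_pos _).ne', Real.log_exp] at h1
  rw [Real.log_mul hc.ne' (Real.exp_pos _).ne', Real.log_exp] at h2
  rw [Real.dist_eq, abs_lt]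
  have e : t⁻¹ * Real.log ‖T t‖ - om hT = t⁻¹ * (Real.log ‖T t‖ - om hT * t) := by
    field_simp
  rw [e]
  have i1 := le_abs_self (Real.log M)
  have i2 := neg_abs_le (Real.log c)
  have i3 := abs_nonneg (Real.log M)
  have i4 := abs_nonneg (Real.log c)
  constructor
  · have : -ε = t⁻¹ * (-(t * ε)) := by field_simp
    rw [this]
    apply mul_lt_mul_of_pos_left _ (by positivity)
    nlinarith
  · have : ε = t⁻¹ * (t * ε) := by field_simp
    rw [this]
    apply mul_lt_mul_of_pos_left _ (by positivity)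
    nlinarith

end Pool.Agent.Q199.PG
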