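import Mathlib
import Pool.Agent.Q199.PG.Growth
set_option autoImplicit false

/-! Laplace transform of a one-parameter group. -/

namespace Pool.Agent.Q199.PG

open Filter Topology Complex MeasureTheory Set

universe v

variable {E : Type v} [NormedAddCommGroup E] [NormedSpace ℂ E] [CompleteSpace E]
variable {T : ℝ → E →L[ℂ] E}

/-- The integrand. -/
noncomputable def gg (T : ℝ → E →L[ℂ] E) (z : ℂ) (u : E) (t : ℝ) : E := Complex.exp (-z * t) • T t u

/-- The Laplace transform. -/
noncomputable def lap (T : ℝ → E →L[ℂ] E) (z : ℂ) (u : E) : E := ∫ t in Ioi (0 : ℝ), gg T z u t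

lemma norm_exp (z : ℂ) (t : ℝ) : ‖Complex.exp (-z * t)‖ = Real.exp (-z.re * t) := by
  rw [Complex.norm_exp]; simp

lemma gg_cont (hT : IsGroup T) (z : ℂ) (u : E) : Continuous (gg T z u) := by
  unfold gg
  apply Continuous.smul
  · fun_prop
  · exact hT.cont u

lemma gg_norm_le {M a : ℝ} (hM : ∀ t, 0 ≤ t → ‖T t‖ ≤ M * Real.exp (a * t)) (z : ℂ) (u : E)
    {t : ℝ} (ht : 0 ≤ t) : ‖gg T z u t‖ ≤ M * ‖u‖ * Real.exp (-(z.re - a) * t) := by
  unfold gg
  rw [norm_smul, norm_exp]
  calc Real.exp (-z.re * t) * ‖T t u‖ ≤ Real.exp (-z.re * t) * (M * Real.exp (a * t) * ‖u‖) := by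
        apply mul_le_mul_of_nonneg_left _ (Real.exp_pos _).le
        exact ((T t).le_opNorm u).trans (mul_le_mul_of_nonneg_right (hM t ht) (norm_nonneg _))
    _ = M * ‖u‖ * (Real.exp (-z.re * t) * Real.exp (a * t)) := by ring
    _ = M * ‖u‖ * Real.exp (-(z.re - a) * t) := by rw [← Real.exp_add]; congr 2; ring

lemma gg_int (hT : IsGroup T) {M a : ℝ} (hM : ∀ t, 0 ≤ t → ‖T t‖ ≤ M * Real.exp (a * t))
    {z : ℂ} (hz : a < z.re) (u : E) : IntegrableOn (gg T z u) (Ioi 0) := by
  have h1 : IntegrableOn (fun t : ℝ => M * ‖u‖ * Real.exp (-(z.re - a) * t)) (Ioi 0) :=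
    (exp_neg_integrableOn_Ioi 0 (by linarith)).const_mul _
  apply Integrable.mono' h1 ((gg_cont hT z u).aestronglyMeasurable.restrict)
  filter_upwards [ae_restrict_mem measurableSet_Ioi] with t ht
  exact gg_norm_le hM z u (le_of_lt ht)

lemma gg_int' [Nontrivial E] (hT : IsGroup T) {z : ℂ} (hz : om hT < z.re) (u : E) :
    IntegrableOn (gg T z u) (Ioi 0) := by
  obtain ⟨M, -, hM⟩ := growth_le hT (l := (om hT + z.re) / 2) (by linarith)
  exact gg_int hT hM (by linarith) u

lemma lap_norm_le (hT : IsGroup T) {M a : ℝ} (hM : ∀ t, 0 ≤ t → ‖T t‖ ≤ M * Real.exp (a * t))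
    {z : ℂ} (hz : a < z.re) (u : E) : ‖lap T z u‖ ≤ M / (z.re - a) * ‖u‖ := by
  have h1 : IntegrableOn (fun t : ℝ => M * ‖u‖ * Real.exp (-(z.re - a) * t)) (Ioi 0) :=
    (exp_neg_integrableOn_Ioi 0 (by linarith)).const_mul _
  have h2 : ‖lap T z u‖ ≤ ∫ t in Ioi (0 : ℝ), M * ‖u‖ * Real.exp (-(z.re - a) * t) := by
    unfold lap
    apply norm_integral_le_of_norm_le h1
    filter_upwards [ae_restrict_mem measurableSet_Ioi] with t ht
    exact gg_norm_le hM z u (le_of_lt ht)
  have h3 : ∫ t in Ioi (0 : ℝ), M * ‖u‖ * Real.exp (-(z.re - a) * t) = M * ‖u‖ * (1 / (z.re - a)) := by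
    rw [integral_const_mul]
    congr 1
    have := integral_exp_mul_Ioi (a := -(z.re - a)) (by linarith) 0
    rw [this, mul_zero, Real.exp_zero, neg_div_neg_eq]
  rw [h3] at h2
  calc _ ≤ _ := h2
    _ = _ := by ring

/-- The Laplace transform as a bounded operator. -/
lemma exists_lap [Nontrivial E] (hT : IsGroup T) {z : ℂ} (hz : om hT < z.re) :
    ∃ R : E →L[ℂ] E, ∀ u, R u = lap T z u := by
  obtain ⟨M, -, hM⟩ := growth_le hT (l := (om hT + z.re) / 2) (by linarith)
  have hz2 : (om hT + z.re) / 2 < z.re := by linarith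
  refine ⟨LinearMap.mkContinuous
    { toFun := lap T z
      map_add' := ?_
      map_smul' := ?_ } (M / (z.re - (om hT + z.re) / 2)) ?_, ?_⟩
  · intro u v
    unfold lap
    rw [← integral_add (gg_int hT hM hz2 u) (gg_int hT hM hz2 v)]
    congr 1; ext t; simp [gg]
  · intro c u
    unfold lap
    rw [RingHom.id_apply, ← integral_smul]
    congr 1; ext t; simp only [gg, map_smul]; rw [smul_comm]
  · intro u
    exact lap_norm_le hT hM hz2 u
  · intro u; rfl

lemma mem_graph_iff (hT : IsGroup T) (u v : E) :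
    (u, v) ∈ genGraph T ↔ HasDerivAt (fun t : ℝ => T t u) v 0 := by
  rw [hasDerivAt_iff_tendsto_slope]
  unfold genGraph
  have : (fun t : ℝ => (t : ℂ)⁻¹ • (T t u - u)) = slope (fun t : ℝ => T t u) 0 := by
    ext t
    rw [slope_def_module, hT.zero, sub_zero, ← Complex.ofReal_inv, Complex.coe_smul]
    simp
  rw [← this]
  rfl

/-- The Laplace transform maps into the domain. -/
lemma lap_mem (hT : IsGroup T) {M a : ℝ} (hM : ∀ t, 0 ≤ t → ‖T t‖ ≤ M * Real.exp (a * t))
    {z : ℂ} (hz : a < z.re) (u : E) : (lap T z u, z • lap T z u - u) ∈ genGraph T := by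
  rw [mem_graph_iff hT]
  have hint := gg_int hT hM hz u
  -- formula
  have key : ∀ h : ℝ, T h (lap T z u) =
      Complex.exp (z * h) • (lap T z u - ∫ t in (0 : ℝ)..h, gg T z u t) := by
    intro h
    have hint' : IntegrableOn (gg T z u) (Ioi h) := by
      rcases le_or_gt 0 h with hh | hh
      · exact hint.mono_set (Ioi_subset_Ioi hh)
      · have : Ioi h = Ioc h 0 ∪ Ioi 0 := (Ioc_union_Ioi_eq_Ioi hh.le).symm
        rw [this]
        apply IntegrableOn.union _ hint
        exact ((gg_cont hT z u).integrableOn_Icc).mono_set Ioc_subset_Icc_self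
    have e1 : T h (lap T z u) = ∫ t in Ioi (0 : ℝ), T h (gg T z u t) := by
      unfold lap
      exact ((T h).integral_comp_comm hint).symm
    have e2 : ∀ t : ℝ, T h (gg T z u t) = Complex.exp (z * h) • gg T z u (t + h) := by
      intro t
      unfold gg
      rw [map_smul, smul_smul, ← Complex.exp_add, add_comm t h, hT.add]
      congr 2
      push_cast; ring
    have e3 : ∫ t in Ioi (0 : ℝ), gg T z u (t + h) = ∫ t in Ioi h, gg T z u t := by
      rw [← integral_indicator measurableSet_Ioi, ← integral_indicator measurableSet_Ioi,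
        ← integral_add_right_eq_self (fun t => (Ioi h).indicator (fun t => gg T z u t) t) h]
      congr 1
      ext t
      by_cases ht : 0 < t
      · rw [indicator_of_mem (show t ∈ Ioi (0:ℝ) from ht),
          indicator_of_mem (show t + h ∈ Ioi h from by simpa using ht)]
      · rw [indicator_of_notMem (show t ∉ Ioi (0:ℝ) from ht),
          indicator_of_notMem (show t + h ∉ Ioi h from by simpa using ht)]
    have e4 : ∫ t in Ioi h, gg T z u t = lap T z u - ∫ t in (0 : ℝ)..h, gg T z u t := by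
      unfold lap
      rw [← intervalIntegral.integral_Ioi_sub_Ioi' hint hint']
      abel
    rw [e1]
    simp_rw [e2]
    rw [integral_smul, e3, e4]
  have hd1 : HasDerivAt (fun h : ℝ => Complex.exp (z * h)) z 0 := by
    have h1 : HasDerivAt (fun h : ℝ => z * (h : ℂ)) z 0 := by
      have := (Complex.ofRealCLM.hasDerivAt (x := (0 : ℝ))).const_mul z
      simpa using this
    have h2 := h1.cexp
    simpa using h2
  have hd2 : HasDerivAt (fun h : ℝ => lap T z u - ∫ t in (0 : ℝ)..h, gg T z u t) (-u) 0 := by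
    have h1 : HasDerivAt (fun h : ℝ => ∫ t in (0 : ℝ)..h, gg T z u t) (gg T z u 0) 0 :=
      ((gg_cont hT z u).integral_hasStrictDerivAt 0 0).hasDerivAt
    have h2 : gg T z u 0 = u := by simp [gg, hT.zero]
    rw [h2] at h1
    exact h1.const_sub _
  have hd3 := hd1.smul hd2
  have e : (fun t : ℝ => T t (lap T z u)) =
      (fun h : ℝ => Complex.exp (z * h) • (lap T z u - ∫ t in (0 : ℝ)..h, gg T z u t)) := by
    ext t; exact key t
  rw [e]
  convert! hd3 using 1
  simp
  abel

/-- The Laplace transform is a left inverse on the domain. -/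
lemma lap_left (hT : IsGroup T) {M a : ℝ} (hM : ∀ t, 0 ≤ t → ‖T t‖ ≤ M * Real.exp (a * t))
    {z : ℂ} (hz : a < z.re) {u v : E} (h : (u, v) ∈ genGraph T) : lap T z (z • u - v) = u := by
  rw [mem_graph_iff hT] at h
  have hd : ∀ t : ℝ, HasDerivAt (fun t : ℝ => T t u) (T t v) t := by
    intro t
    have h1 : HasDerivAt (fun s : ℝ => T t (T s u)) (T t v) 0 := by
      exact ((T t).restrictScalars ℝ).hasFDerivAt.comp_hasDerivAt (0 : ℝ) h
    have h2 : (fun s : ℝ => T t (T s u)) = fun s : ℝ => T (t + s) u := by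
      ext s; rw [hT.add]; rfl
    rw [h2] at h1
    have h3 : HasDerivAt (fun s : ℝ => T (t + (s - t)) u) (T t v) t := by
      have h5 : HasDerivAt (fun s : ℝ => T (t + s) u) (T t v) (t - t) := by simpa using h1
      exact HasDerivAt.comp_sub_const t t h5
    simpa using h3
  have hF : ∀ t ∈ Ioi (0 : ℝ), HasDerivAt (fun t : ℝ => -gg T z u t) (gg T z (z • u - v) t) t := by
    intro t _
    have h1 : HasDerivAt (fun t : ℝ => Complex.exp (-z * t)) (Complex.exp (-z * t) * (-z)) t := by
      have h1 : HasDerivAt (fun h : ℝ => -z * (h : ℂ)) (-z) t := by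
        have := (Complex.ofRealCLM.hasDerivAt (x := t)).const_mul (-z)
        simpa using this
      exact h1.cexp
    have h2 := (h1.smul (hd t)).neg
    convert! h2 using 1
    unfold gg
    simp only [map_sub, map_smul, smul_sub, smul_smul, neg_add_rev]
    module
  have hlim : Tendsto (fun t : ℝ => -gg T z u t) atTop (𝓝 0) := by
    rw [← neg_zero]
    apply Tendsto.neg
    rw [tendsto_zero_iff_norm_tendsto_zero]
    have h1 : Tendsto (fun t : ℝ => M * ‖u‖ * Real.exp (-(z.re - a) * t)) atTop (𝓝 0) := by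
      have : Tendsto (fun t : ℝ => Real.exp (-(z.re - a) * t)) atTop (𝓝 0) := by
        apply Real.tendsto_exp_atBot.comp
        apply Tendsto.const_mul_atTop_of_neg (by linarith) tendsto_id
      simpa using this.const_mul (M * ‖u‖)
    apply squeeze_zero' (Eventually.of_forall fun _ => norm_nonneg _) _ h1
    filter_upwards [eventually_ge_atTop 0] with t ht
    exact gg_norm_le hM z u ht
  have := integral_Ioi_of_hasDerivAt_of_tendsto (a := (0 : ℝ)) (f := fun t : ℝ => -gg T z u t)
    (f' := gg T z (z • u - v)) ((gg_cont hT z u).neg.continuousWithinAt) hF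
    (gg_int hT hM hz _) hlim
  unfold lap
  rw [this]
  simp [gg, hT.zero]

/-- Resolvent identity. -/
lemma lap_resolvent [Nontrivial E] (hT : IsGroup T) {z w : ℂ} (hz : om hT < z.re) (hw : om hT < w.re)
    (u : E) : lap T w u = lap T z u + (z - w) • lap T z (lap T w u) := by
  obtain ⟨a, ha1, ha2⟩ := exists_between (lt_min hz hw)
  obtain ⟨M, -, hM⟩ := growth_le hT ha1
  obtain ⟨R, hR⟩ := exists_lap hT hz
  have h1 := lap_mem hT hM (ha2.trans_le (min_le_right _ _)) u
  have h2 := lap_left hT hM (ha2.trans_le (min_le_left _ _)) h1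
  rw [← hR] at h2
  rw [← hR, ← hR]
  nth_rw 1 [← h2]
  simp only [map_sub, map_smul]
  module

/-- All points to the right of the growth bound are in the resolvent set. -/
lemma inResolventSet [Nontrivial E] (hT : IsGroup T) {z : ℂ} (hz : om hT < z.re) :
    InResolventSet T z := by
  obtain ⟨a, ha1, ha2⟩ := exists_between hz
  obtain ⟨M, -, hM⟩ := growth_le hT ha1
  obtain ⟨R, hR⟩ := exists_lap hT hz
  refine ⟨R, fun u => ?_, fun p hp => ?_⟩
  · rw [hR]; exact lap_mem hT hM ha2 u
  · rw [hR]; exact lap_left hT hM ha2 hp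

end Pool.Agent.Q199.PG
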