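import Mathlib
import Pool.Agent.Q199.PG.Lap
set_option autoImplicit false

/-! Domination of the Laplace transform of a positive group. -/

namespace Pool.Agent.Q199.PG

open Filter Topology Complex MeasureTheory Set

universe u v

variable {H : Type u} [NormedAddCommGroup H] [InnerProductSpace ℝ H] [CompleteSpace H]

lemma IsOrderCone.convex {K : Set H} (hK : IsOrderCone K) : Convex ℝ K := by
  intro x hx y hy a b ha hb _
  exact hK.add_mem _ (hK.smul_mem a ha x hx) _ (hK.smul_mem b hb y hy)

/-- Integrals of `K`-valued functions are in `K`. -/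
lemma IsOrderCone.integral_mem {K : Set H} (hK : IsOrderCone K) {f : ℝ → H}
    (hf : IntegrableOn f (Ioi 0)) (h : ∀ t, 0 < t → f t ∈ K) :
    ∫ t in Ioi (0 : ℝ), f t ∈ K := by
  have h1 : Tendsto (fun n : ℝ => ∫ t in (0 : ℝ)..n, f t) atTop (𝓝 (∫ t in Ioi (0 : ℝ), f t)) :=
    intervalIntegral_tendsto_integral_Ioi 0 hf tendsto_id
  apply hK.closed.mem_of_tendsto h1
  filter_upwards [eventually_gt_atTop 0] with n hn
  rw [intervalIntegral.integral_of_le hn.le]
  have hne : volume (Ioc (0 : ℝ) n) ≠ 0 := by simp [hn]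
  have hfin : volume (Ioc (0 : ℝ) n) ≠ ⊤ := by simp
  have h2 : (⨍ t in Ioc (0 : ℝ) n, f t) ∈ K := by
    apply hK.convex.set_average_mem hK.closed hne hfin
    · filter_upwards [ae_restrict_mem measurableSet_Ioc] with t ht
      exact h t ht.1
    · exact hf.mono_set (fun t ht => ht.1)
  have h3 := hK.smul_mem n hn.le _ h2
  rw [setAverage_eq] at h3
  simp only [smul_smul, measureReal_def, Real.volume_Ioc, sub_zero, ENNReal.toReal_ofReal hn.le] at h3
  rw [mul_inv_cancel₀ hn.ne', one_smul] at h3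
  exact h3

variable {E : Type v} [NormedAddCommGroup E] [InnerProductSpace ℂ E] [CompleteSpace E]
variable {T : ℝ → E →L[ℂ] E} {K : Set H} {ι : H →ₗ[ℝ] E}

omit [CompleteSpace H] [CompleteSpace E] in
lemma IsComplexification.norm_eq (hι : IsComplexification ι) (x : H) : ‖ι x‖ = ‖x‖ := by
  have h1 := hι.inner_eq x x
  rw [real_inner_self_eq_norm_sq, inner_self_eq_norm_sq_to_K] at h1
  have h2 : ‖ι x‖ ^ 2 = ‖x‖ ^ 2 := by
    have h3 : ((‖ι x‖ ^ 2 : ℝ) : ℂ) = ((‖x‖ ^ 2 : ℝ) : ℂ) := by
      rw [← h1]; push_cast; rfl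
    exact Complex.ofReal_injective h3
  exact (sq_eq_sq₀ (norm_nonneg _) (norm_nonneg _)).mp h2

/-- The isometry. -/
noncomputable def iso (hι : IsComplexification ι) : H →ₗᵢ[ℝ] E :=
  { ι with norm_map' := hι.norm_eq }

omit [CompleteSpace H] [CompleteSpace E] in
@[simp] lemma iso_apply (hι : IsComplexification ι) (x : H) : iso hι x = ι x := rfl

/-- Domination. -/
lemma dom [Nontrivial E] (hK : IsOrderCone K) (hι : IsComplexification ι) (hT : IsGroup T)
    (hp : ∀ t, IsPositive K ι (T t)) : ∃ C : ℝ, 0 < C ∧ ∀ z : ℂ, om hT < z.re → ∀ x ∈ K,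
      ‖lap T z (ι x)‖ ≤ C * ‖lap T (z.re : ℂ) (ι x)‖ := by
  obtain ⟨c, hc, hn⟩ := hK.normal
  refine ⟨2 * (2 * c + 1), by positivity, ?_⟩
  intro z hz x hx
  choose k hkK hk using fun t => hp t x hx
  set J := iso hι with hJ
  have hkc : Continuous k := by
    have h1 : Continuous (fun t => J (k t)) := by
      have := hT.cont (ι x)
      simp only [hk] at this
      exact this
    exact (J.isometry.isEmbedding.continuous_iff).mpr h1
  set l : ℝ := z.re with hl
  have hint0 := gg_int' hT (z := (l : ℂ)) (by simpa using hz) (ι x)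
  have hnk : ∀ t, ‖k t‖ = ‖T t (ι x)‖ := by intro t; rw [hk, hι.norm_eq]
  -- scalar weights
  have hintw : ∀ w : ℝ → ℝ, Continuous w → (∀ t, |w t| ≤ 2) →
      IntegrableOn (fun t => (Real.exp (-l * t) * w t) • k t) (Ioi 0) := by
    intro w hw hw1
    have h1 : IntegrableOn (fun t => 2 * ‖gg T (l : ℂ) (ι x) t‖) (Ioi 0) := hint0.norm.const_mul 2
    apply Integrable.mono' h1
    · apply Continuous.aestronglyMeasurable
      exact Continuous.smul (by fun_prop) hkc
    · filter_upwards with t
      rw [norm_smul, hnk]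
      unfold gg
      rw [norm_smul, norm_exp, norm_mul, Real.norm_eq_abs, Real.norm_eq_abs, Real.abs_exp]
      simp only [ofReal_re]
      nlinarith [mul_le_mul_of_nonneg_left (hw1 t) (mul_nonneg (Real.exp_pos (-l * t)).le
        (norm_nonneg (T t (ι x))))]
  set v0 : H := ∫ t in Ioi (0 : ℝ), (Real.exp (-l * t) * 1) • k t with hv0
  have hint1 := hintw (fun _ => 1) continuous_const (by intro t; norm_num)
  have e0 : lap T (l : ℂ) (ι x) = ι v0 := by
    have h1 : J v0 = ∫ t in Ioi (0 : ℝ), J ((Real.exp (-l * t) * 1) • k t) :=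
      (J.toContinuousLinearMap.integral_comp_comm hint1).symm
    have e1 : ι v0 = J v0 := rfl
    rw [e1, h1]
    unfold lap
    congr 1
    ext t
    unfold gg
    rw [hk, J.map_smul, mul_one, ← Complex.coe_smul, hJ, iso_apply]
    push_cast
    rfl
  -- key estimate for weights bounded by one
  have key : ∀ w : ℝ → ℝ, Continuous w → (∀ t, |w t| ≤ 1) →
      ‖∫ t in Ioi (0 : ℝ), (Real.exp (-l * t) * w t) • k t‖ ≤ (2 * c + 1) * ‖v0‖ := by
    intro w hw hw1
    have hintw1 := hintw w hw (fun t => (hw1 t).trans (by norm_num))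
    set a : H := ∫ t in Ioi (0 : ℝ), (Real.exp (-l * t) * w t) • k t with ha
    have h1 : v0 + a ∈ K := by
      rw [hv0, ha, ← integral_add hint1 hintw1]
      apply hK.integral_mem (hint1.add hintw1)
      intro t _
      have e5 : (Real.exp (-l * t) * 1) • k t + (Real.exp (-l * t) * w t) • k t =
        (Real.exp (-l * t) * (1 + w t)) • k t := by module
      change (Real.exp (-l * t) * 1) • k t + (Real.exp (-l * t) * w t) • k t ∈ K
      rw [e5]
      apply hK.smul_mem _ _ _ (hkK t)
      have := abs_le.mp (hw1 t)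
      apply mul_nonneg (Real.exp_pos _).le; linarith
    have h2 : v0 - a ∈ K := by
      rw [hv0, ha, ← integral_sub hint1 hintw1]
      apply hK.integral_mem (hint1.sub hintw1)
      intro t _
      have e5 : (Real.exp (-l * t) * 1) • k t - (Real.exp (-l * t) * w t) • k t =
        (Real.exp (-l * t) * (1 - w t)) • k t := by module
      change (Real.exp (-l * t) * 1) • k t - (Real.exp (-l * t) * w t) • k t ∈ K
      rw [e5]
      apply hK.smul_mem _ _ _ (hkK t)
      have := abs_le.mp (hw1 t)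
      apply mul_nonneg (Real.exp_pos _).le; linarith
    have h3 := hn (v0 + a) ((2 : ℝ) • v0) h1 (by
      have : (2 : ℝ) • v0 - (v0 + a) = v0 - a := by module
      rw [this]; exact h2)
    rw [norm_smul] at h3
    have h4 : ‖a‖ ≤ ‖v0 + a‖ + ‖v0‖ := by
      have := norm_sub_le (v0 + a) v0
      simpa using this
    simp only [Real.norm_ofNat] at h3
    linarith
  have k1 := key (fun t => Real.cos (z.im * t)) (by fun_prop) (fun t => Real.abs_cos_le_one _)
  have k2 := key (fun t => -Real.sin (z.im * t)) (by fun_prop) (fun t => by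
    rw [abs_neg]; exact Real.abs_sin_le_one _)
  have i1 := hintw (fun t => Real.cos (z.im * t)) (by fun_prop)
    (fun t => (Real.abs_cos_le_one _).trans (by norm_num))
  have i2 := hintw (fun t => -Real.sin (z.im * t)) (by fun_prop) (fun t => by
    rw [abs_neg]; exact (Real.abs_sin_le_one _).trans (by norm_num))
  set a1 : H := ∫ t in Ioi (0 : ℝ), (Real.exp (-l * t) * Real.cos (z.im * t)) • k t with ha1
  set a2 : H := ∫ t in Ioi (0 : ℝ), (Real.exp (-l * t) * -Real.sin (z.im * t)) • k t with ha2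
  have ez : lap T z (ι x) = ι a1 + Complex.I • ι a2 := by
    have h1 : J a1 = ∫ t in Ioi (0 : ℝ), J ((Real.exp (-l * t) * Real.cos (z.im * t)) • k t) :=
      (J.toContinuousLinearMap.integral_comp_comm i1).symm
    have h2 : J a2 = ∫ t in Ioi (0 : ℝ), J ((Real.exp (-l * t) * -Real.sin (z.im * t)) • k t) :=
      (J.toContinuousLinearMap.integral_comp_comm i2).symm
    have j1 : IntegrableOn (fun t => J ((Real.exp (-l * t) * Real.cos (z.im * t)) • k t)) (Ioi 0) :=
      J.toContinuousLinearMap.integrable_comp i1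
    have j2 : IntegrableOn (fun t => J ((Real.exp (-l * t) * -Real.sin (z.im * t)) • k t)) (Ioi 0) :=
      J.toContinuousLinearMap.integrable_comp i2
    have e1 : ι a1 = J a1 := rfl
    have e2 : ι a2 = J a2 := rfl
    have j3 : IntegrableOn (fun t => Complex.I • J ((Real.exp (-l * t) * -Real.sin (z.im * t)) • k t))
      (Ioi 0) := j2.smul Complex.I
    rw [e1, e2, h1, h2, ← integral_smul, ← integral_add j1 j3]
    unfold lap
    congr 1
    ext t
    unfold gg
    rw [hk]
    simp only [hJ, iso_apply]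
    rw [ι.map_smul, ι.map_smul, ← Complex.coe_smul (Real.exp (-l * t) * Real.cos (z.im * t)) (ι (k t)),
      ← Complex.coe_smul (Real.exp (-l * t) * -Real.sin (z.im * t)) (ι (k t)), smul_smul, ← add_smul]
    congr 1
    have hz2 : -z * t = ((-l * t : ℝ) : ℂ) + ((-(z.im * t) : ℝ) : ℂ) * Complex.I := by
      apply Complex.ext <;> simp [hl]
    rw [hz2, Complex.exp_add, Complex.exp_mul_I, ← Complex.ofReal_cos, ← Complex.ofReal_sin,
      ← Complex.ofReal_exp, Real.cos_neg, Real.sin_neg]
    push_cast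
    ring
  rw [ez, e0, hι.norm_eq]
  calc ‖ι a1 + Complex.I • ι a2‖ ≤ ‖ι a1‖ + ‖Complex.I • ι a2‖ := _root_.norm_add_le _ _
    _ = ‖a1‖ + ‖a2‖ := by rw [norm_smul, hι.norm_eq, hι.norm_eq]; simp
    _ ≤ 2 * (2 * c + 1) * ‖v0‖ := by linarith

end Pool.Agent.Q199.PG
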