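import Mathlib
import Pool.Agent.Q199.PG.Pos
import Pool.Agent.TH277.HT.Pl
set_option autoImplicit false

/-! The growth bound of a positive group on an ordered Hilbert space is in the spectrum. -/

namespace Pool.Agent.Q199.PG

open Filter Topology Complex MeasureTheory Set FourierTransform
open scoped ENNReal

universe u v

/-- Averaging lemma. -/
lemma avg_lemma {E : Type v} [NormedAddCommGroup E] {g : ℝ → E} {A : ℝ} (hA : 0 ≤ A)
    (hg : ∫⁻ s in Ioi (0 : ℝ), ‖g s‖ₑ ^ 2 ≤ ENNReal.ofReal A) {a b y P : ℝ} (ha : 0 ≤ a) (hab : a ≤ b)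
    (hy : 0 ≤ y) (hP : 0 ≤ P) (h : ∀ s ∈ Ioo a b, y ≤ P * ‖g s‖) :
    (b - a) * y ^ 2 ≤ P ^ 2 * A := by
  have hPA : 0 ≤ P ^ 2 * A := by positivity
  rw [← ENNReal.ofReal_le_ofReal_iff hPA]
  calc ENNReal.ofReal ((b - a) * y ^ 2) = ∫⁻ _ in Ioo a b, ENNReal.ofReal (y ^ 2) := by
        rw [lintegral_const, Measure.restrict_apply_univ, Real.volume_Ioo, mul_comm,
          ENNReal.ofReal_mul (by positivity)]
    _ ≤ ∫⁻ s in Ioo a b, ENNReal.ofReal (P ^ 2) * ‖g s‖ₑ ^ 2 := by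
        apply setLIntegral_mono' measurableSet_Ioo
        intro s hs
        have h1 := h s hs
        have h2 : y ^ 2 ≤ P ^ 2 * ‖g s‖ ^ 2 := by
          rw [← mul_pow]; exact pow_le_pow_left₀ hy h1 2
        calc ENNReal.ofReal (y ^ 2) ≤ ENNReal.ofReal (P ^ 2 * ‖g s‖ ^ 2) :=
              ENNReal.ofReal_le_ofReal h2
          _ = ENNReal.ofReal (P ^ 2) * ‖g s‖ₑ ^ 2 := by
              rw [ENNReal.ofReal_mul (by positivity), ENNReal.ofReal_pow (norm_nonneg _), ofReal_norm]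
    _ = ENNReal.ofReal (P ^ 2) * ∫⁻ s in Ioo a b, ‖g s‖ₑ ^ 2 := by
        rw [lintegral_const_mul' _ _ ENNReal.ofReal_ne_top]
    _ ≤ ENNReal.ofReal (P ^ 2) * ENNReal.ofReal A := by
        apply mul_le_mul_right
        exact (lintegral_mono_set (fun s hs => lt_of_le_of_lt ha hs.1)).trans hg
    _ = ENNReal.ofReal (P ^ 2 * A) := by rw [ENNReal.ofReal_mul (by positivity)]

variable {E : Type v} [NormedAddCommGroup E] [InnerProductSpace ℂ E] [CompleteSpace E]
variable {T : ℝ → E →L[ℂ] E}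

lemma fourier_gg (l : ℝ) (u : E) (ξ : ℝ) :
    𝓕 ((Ioi (0 : ℝ)).indicator (gg T (l : ℂ) u)) ξ = lap T (l + 2 * Real.pi * ξ * Complex.I) u := by
  rw [Real.fourier_real_eq_integral_exp_smul]
  unfold lap
  rw [← integral_indicator measurableSet_Ioi]
  congr 1
  ext t
  by_cases ht : t ∈ Ioi (0 : ℝ)
  · rw [indicator_of_mem ht, indicator_of_mem ht]
    unfold gg
    rw [smul_smul, ← Complex.exp_add]
    congr 2
    push_cast
    ring
  · rw [indicator_of_notMem ht, indicator_of_notMem ht, smul_zero]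

lemma planch [Nontrivial E] (hT : IsGroup T) {l : ℝ} (hl : om hT < l) (u : E) :
    ∫⁻ ξ : ℝ, ‖lap T (l + 2 * Real.pi * ξ * Complex.I) u‖ₑ ^ 2 =
      ∫⁻ t in Ioi (0 : ℝ), ‖gg T (l : ℂ) u t‖ₑ ^ 2 := by
  have hl' : om hT < (l : ℂ).re := by simpa using hl
  have h1 : Integrable ((Ioi (0 : ℝ)).indicator (gg T (l : ℂ) u)) :=
    (integrable_indicator_iff measurableSet_Ioi).mpr (gg_int' hT hl' u)
  obtain ⟨a, ha1, ha2⟩ := exists_between hl
  obtain ⟨M, hM0, hM⟩ := growth_le hT ha1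
  have h2 : MemLp ((Ioi (0 : ℝ)).indicator (gg T (l : ℂ) u)) 2 := by
    rw [memLp_indicator_iff_restrict measurableSet_Ioi]
    rw [memLp_two_iff_integrable_sq_norm ((gg_cont hT _ u).aestronglyMeasurable.restrict)]
    have h3 : IntegrableOn (fun t : ℝ => (M * ‖u‖) ^ 2 * Real.exp (-(2 * (l - a)) * t)) (Ioi 0) :=
      (exp_neg_integrableOn_Ioi 0 (by linarith)).const_mul _
    apply Integrable.mono' h3
    · exact ((gg_cont hT _ u).norm.pow 2).aestronglyMeasurable.restrict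
    · filter_upwards [ae_restrict_mem measurableSet_Ioi] with t ht
      rw [Real.norm_eq_abs, abs_of_nonneg (by positivity)]
      have h4 := gg_norm_le hM (l : ℂ) u (le_of_lt ht)
      calc ‖gg T (l : ℂ) u t‖ ^ 2 ≤ (M * ‖u‖ * Real.exp (-((l : ℂ).re - a) * t)) ^ 2 :=
            pow_le_pow_left₀ (norm_nonneg _) h4 2
        _ = (M * ‖u‖) ^ 2 * Real.exp (-(2 * (l - a)) * t) := by
            rw [mul_pow, ← Real.exp_nat_mul]
            congr 2
            simp
            ring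
  have h3 := Pool.Agent.TH277.HT.plancherel _ h1 h2
  simp only [fourier_gg] at h3
  rw [h3, ← lintegral_indicator measurableSet_Ioi]
  congr 1
  ext t
  by_cases ht : t ∈ Ioi (0 : ℝ)
  · rw [indicator_of_mem ht, indicator_of_mem ht]
  · rw [indicator_of_notMem ht, indicator_of_notMem ht]; simp

variable {H : Type u} [NormedAddCommGroup H] [InnerProductSpace ℝ H] [CompleteSpace H]
variable {K : Set H} {ι : H →ₗ[ℝ] E}

/-- Uniform bound for the resolvents if `om` is in the resolvent set. -/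
lemma unif [Nontrivial E] (hK : IsOrderCone K) (hι : IsComplexification ι) (hT : IsGroup T)
    (hp : ∀ t, IsPositive K ι (T t)) (hR : InResolventSet T (om hT : ℂ)) :
    ∃ δ : ℝ, 0 < δ ∧ δ ≤ 1 ∧ ∃ C : ℝ, 0 ≤ C ∧ ∀ z : ℂ, om hT < z.re → z.re ≤ om hT + δ →
      ∀ u, ‖lap T z u‖ ≤ C * ‖u‖ := by
  obtain ⟨R, hR1, hR2⟩ := hR
  set r := ‖R‖ with hr
  have hr0 : 0 ≤ r := norm_nonneg _
  obtain ⟨C1, hC1, hdom⟩ := dom hK hι hT hp
  refine ⟨1 / (2 * (r + 1)), by positivity, ?_, ?_⟩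
  · rw [div_le_one (by positivity)]; linarith
  -- real points
  have hreal : ∀ l : ℝ, om hT < l → l ≤ om hT + 1 / (2 * (r + 1)) → ∀ u,
      ‖lap T (l : ℂ) u‖ ≤ 2 * r * ‖u‖ := by
    intro l hl1 hl2 u
    obtain ⟨a, ha1, ha2⟩ := exists_between hl1
    obtain ⟨M, -, hM⟩ := growth_le hT ha1
    have h1 := hR2 _ (lap_mem hT hM (z := (l : ℂ)) (by simpa using ha2) u)
    simp only at h1
    have h2 : ‖lap T (l : ℂ) u‖ ≤ r * ‖(om hT : ℂ) • lap T (l : ℂ) u - ((l : ℂ) • lap T (l : ℂ) u - u)‖ := by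
      nth_rw 1 [← h1]
      exact R.le_opNorm _
    have h3 : ‖(om hT : ℂ) • lap T (l : ℂ) u - ((l : ℂ) • lap T (l : ℂ) u - u)‖ ≤
        (l - om hT) * ‖lap T (l : ℂ) u‖ + ‖u‖ := by
      have e : (om hT : ℂ) • lap T (l : ℂ) u - ((l : ℂ) • lap T (l : ℂ) u - u) =
        (((om hT - l : ℝ)) : ℂ) • lap T (l : ℂ) u + u := by push_cast; module
      rw [e]
      refine (_root_.norm_add_le _ _).trans ?_
      rw [norm_smul, Complex.norm_real, Real.norm_eq_abs, abs_sub_comm, abs_of_pos (by linarith)]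
    have h4 : r * (l - om hT) ≤ 1 / 2 := by
      have : r * (l - om hT) ≤ r * (1 / (2 * (r + 1))) :=
        mul_le_mul_of_nonneg_left (by linarith) hr0
      refine this.trans ?_
      rw [mul_one_div, div_le_div_iff₀ (by positivity) (by norm_num)]
      linarith
    have h5 : r * ((l - om hT) * ‖lap T (l : ℂ) u‖ + ‖u‖) ≤ 1 / 2 * ‖lap T (l : ℂ) u‖ + r * ‖u‖ := by
      have := mul_le_mul_of_nonneg_right h4 (norm_nonneg (lap T (l : ℂ) u))
      nlinarith
    have h6 := h2.trans (mul_le_mul_of_nonneg_left h3 hr0)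
    linarith
  -- Banach-Steinhaus
  let I := {z : ℂ // om hT < z.re ∧ z.re ≤ om hT + 1 / (2 * (r + 1))}
  choose G hG using fun z : I => exists_lap hT z.2.1
  have hpt : ∀ x ∈ K, ∀ z : I, ‖G z (ι x)‖ ≤ C1 * (2 * r * ‖x‖) := by
    intro x hx z
    rw [hG]
    refine (hdom z.1 z.2.1 x hx).trans ?_
    apply mul_le_mul_of_nonneg_left _ hC1.le
    have := hreal z.1.re z.2.1 z.2.2 (ι x)
    rwa [hι.norm_eq] at this
  obtain ⟨C, hC⟩ := banach_steinhaus (g := G) (by
    intro u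
    obtain ⟨x, y, rfl⟩ := hι.exists_eq u
    obtain ⟨x1, hx1, x2, hx2, rfl⟩ := hK.generating x
    obtain ⟨y1, hy1, y2, hy2, rfl⟩ := hK.generating y
    refine ⟨C1 * (2 * r * ‖x1‖) + C1 * (2 * r * ‖x2‖) + (C1 * (2 * r * ‖y1‖) + C1 * (2 * r * ‖y2‖)),
      fun z => ?_⟩
    rw [map_add, map_smul]
    refine (_root_.norm_add_le _ _).trans ?_
    rw [norm_smul, Complex.norm_I, one_mul, ι.map_sub, ι.map_sub, map_sub, map_sub]
    exact add_le_add ((norm_sub_le _ _).trans (add_le_add (hpt _ hx1 z) (hpt _ hx2 z)))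
      ((norm_sub_le _ _).trans (add_le_add (hpt _ hy1 z) (hpt _ hy2 z))))
  refine ⟨max C 0, le_max_right _ _, fun z hz1 hz2 u => ?_⟩
  have h1 := (G ⟨z, hz1, hz2⟩).le_opNorm u
  rw [hG] at h1
  exact h1.trans (mul_le_mul_of_nonneg_right ((hC _).trans (le_max_left _ _)) (norm_nonneg _))

/-- The growth bound is in the spectrum. -/
theorem om_mem [Nontrivial E] (hK : IsOrderCone K) (hι : IsComplexification ι) (hT : IsGroup T)
    (hp : ∀ t, IsPositive K ι (T t)) : (om hT : ℂ) ∈ genSpectrum T := by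
  intro hR
  obtain ⟨δ, hδ, hδ1, C, hC, hunif⟩ := unif hK hι hT hp hR
  set ω := om hT with hω
  obtain ⟨M, hM0, hM⟩ := growth_le hT (l := ω + 1 / 2) (by linarith)
  set D : ℝ := (1 + C) ^ 2 * M ^ 2 with hD
  have hD0 : 0 ≤ D := by positivity
  -- square integrability, uniformly
  have hsq : ∀ l : ℝ, ω < l → l ≤ ω + δ → ∀ u : E,
      ∫⁻ t in Ioi (0 : ℝ), ‖gg T (l : ℂ) u t‖ₑ ^ 2 ≤ ENNReal.ofReal (D * ‖u‖ ^ 2) := by
    intro l hl1 hl2 u
    rw [← planch hT hl1 u]
    have h1 : ∀ ξ : ℝ, ‖lap T (l + 2 * Real.pi * ξ * Complex.I) u‖ₑ ^ 2 ≤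
        ENNReal.ofReal ((1 + C) ^ 2) * ‖lap T ((ω + 1 : ℝ) + 2 * Real.pi * ξ * Complex.I) u‖ₑ ^ 2 := by
      intro ξ
      set z : ℂ := l + 2 * Real.pi * ξ * Complex.I with hz
      set w : ℂ := (ω + 1 : ℝ) + 2 * Real.pi * ξ * Complex.I with hw
      have hzre : z.re = l := by simp [hz]
      have hwre : w.re = ω + 1 := by simp [hw]
      have hres := lap_resolvent hT (z := z) (w := w) (by rw [hzre]; exact hl1)
        (by rw [hwre, ← hω]; linarith) u
      have hzw : z - w = ((l - (ω + 1) : ℝ) : ℂ) := by rw [hz, hw]; push_cast; ring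
      have h2 : ‖lap T z u‖ ≤ (1 + C) * ‖lap T w u‖ := by
        have e : lap T z u = lap T w u - (z - w) • lap T z (lap T w u) := by
          rw [eq_sub_iff_add_eq]; exact hres.symm
        rw [e]
        refine (norm_sub_le _ _).trans ?_
        rw [norm_smul, hzw, Complex.norm_real, Real.norm_eq_abs]
        have h3 : |l - (ω + 1)| ≤ 1 := by rw [abs_le]; constructor <;> linarith
        have h4 := hunif z (by rw [hzre]; exact hl1) (by rw [hzre]; exact hl2) (lap T w u)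
        have h5 : |l - (ω + 1)| * ‖lap T z (lap T w u)‖ ≤ 1 * (C * ‖lap T w u‖) :=
          mul_le_mul h3 h4 (norm_nonneg _) zero_le_one
        linarith
      rw [← ofReal_norm, ← ofReal_norm, ← ENNReal.ofReal_pow (norm_nonneg _),
        ← ENNReal.ofReal_pow (norm_nonneg _), ← ENNReal.ofReal_mul (by positivity), ← mul_pow]
      exact ENNReal.ofReal_le_ofReal (pow_le_pow_left₀ (norm_nonneg _) h2 2)
    calc _ ≤ ∫⁻ ξ : ℝ, ENNReal.ofReal ((1 + C) ^ 2) *
          ‖lap T ((ω + 1 : ℝ) + 2 * Real.pi * ξ * Complex.I) u‖ₑ ^ 2 := lintegral_mono h1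
      _ = ENNReal.ofReal ((1 + C) ^ 2) * ∫⁻ t in Ioi (0 : ℝ), ‖gg T ((ω + 1 : ℝ) : ℂ) u t‖ₑ ^ 2 := by
          rw [lintegral_const_mul' _ _ ENNReal.ofReal_ne_top, planch hT (by linarith) u]
      _ ≤ ENNReal.ofReal ((1 + C) ^ 2) * ENNReal.ofReal (M ^ 2 * ‖u‖ ^ 2) := by
          apply mul_le_mul_right
          have h6 : ∀ t ∈ Ioi (0 : ℝ), ‖gg T ((ω + 1 : ℝ) : ℂ) u t‖ₑ ^ 2 ≤
              ENNReal.ofReal (M ^ 2 * ‖u‖ ^ 2 * Real.exp (-t)) := by
            intro t ht
            rw [← ofReal_norm, ← ENNReal.ofReal_pow (norm_nonneg _)]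
            apply ENNReal.ofReal_le_ofReal
            calc ‖gg T ((ω + 1 : ℝ) : ℂ) u t‖ ^ 2 ≤
                (M * ‖u‖ * Real.exp (-((((ω + 1 : ℝ)) : ℂ).re - (ω + 1 / 2)) * t)) ^ 2 :=
                  pow_le_pow_left₀ (norm_nonneg _) (gg_norm_le hM _ u (le_of_lt ht)) 2
              _ = M ^ 2 * ‖u‖ ^ 2 * Real.exp (-t) := by
                  rw [mul_pow, mul_pow, ← Real.exp_nat_mul]
                  congr 2
                  simp only [ofReal_re]
                  push_cast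
                  ring
          refine (setLIntegral_mono' measurableSet_Ioi h6).trans ?_
          rw [← ofReal_integral_eq_lintegral_ofReal]
          · rw [integral_const_mul, integral_exp_neg_Ioi_zero, mul_one]
          · exact (integrableOn_exp_neg_Ioi 0).const_mul _
          · filter_upwards with t
            positivity
      _ = ENNReal.ofReal (D * ‖u‖ ^ 2) := by
          rw [← ENNReal.ofReal_mul (by positivity), hD]
          congr 1; ring
  -- Datko
  obtain ⟨B0, hB01, hB0⟩ := exists_bound hT 0 1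
  set B := B0 * Real.exp (|ω| + 1) with hB
  have hBpos : 1 ≤ B := by
    have : 1 ≤ Real.exp (|ω| + 1) := Real.one_le_exp (by positivity)
    nlinarith
  have hgg : ∀ l : ℝ, ∀ s t : ℝ, ∀ u : E, gg T (l : ℂ) u (s + t) =
      Complex.exp (-l * s) • T s (gg T (l : ℂ) u t) := by
    intro l s t u
    unfold gg
    rw [map_smul, smul_smul, ← Complex.exp_add, hT.add, ContinuousLinearMap.mul_apply]
    have e : -(l : ℂ) * ((s + t : ℝ) : ℂ) = -(l : ℂ) * s + -(l : ℂ) * t := by push_cast; ring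
    rw [e]
  have hB1 : ∀ l : ℝ, ω < l → l ≤ ω + δ → ∀ s ∈ Icc (0 : ℝ) 1, ∀ v : E,
      ‖Complex.exp (-l * s) • T s v‖ ≤ B * ‖v‖ := by
    intro l hl1 hl2 s hs v
    have h7 : ‖Complex.exp (-l * s)‖ = Real.exp (-l * s) := by
      have := norm_exp (l : ℂ) s
      simpa using this
    rw [norm_smul, h7]
    have h8 : Real.exp (-l * s) ≤ Real.exp (|ω| + 1) := by
      apply Real.exp_le_exp.mpr
      have h9 : |l| ≤ |ω| + 1 := by
        have : l = ω + (l - ω) := by ring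
        rw [this]
        refine (abs_add_le _ _).trans ?_
        rw [abs_of_pos (show 0 < l - ω by linarith)]; linarith
      have h10 := neg_abs_le l
      nlinarith [hs.1, hs.2, abs_nonneg l]
    calc Real.exp (-l * s) * ‖T s v‖ ≤ Real.exp (|ω| + 1) * (B0 * ‖v‖) := by
          apply mul_le_mul h8 _ (norm_nonneg _) (Real.exp_pos _).le
          exact ((T s).le_opNorm v).trans (mul_le_mul_of_nonneg_right (hB0 s hs) (norm_nonneg _))
      _ = B * ‖v‖ := by rw [hB]; ring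
  set L := B * (1 + Real.sqrt D) with hL
  have hL0 : 0 ≤ L := by positivity
  have hbd : ∀ l : ℝ, ω < l → l ≤ ω + δ → ∀ t : ℝ, 0 ≤ t → ∀ u : E,
      ‖gg T (l : ℂ) u t‖ ≤ L * ‖u‖ := by
    intro l hl1 hl2 t ht u
    rcases le_or_gt t 1 with h1 | h1
    · have h2 := hB1 l hl1 hl2 t ⟨ht, h1⟩ u
      refine (show ‖gg T (l : ℂ) u t‖ ≤ B * ‖u‖ from h2).trans ?_
      apply mul_le_mul_of_nonneg_right _ (norm_nonneg _)
      rw [hL]
      nlinarith [Real.sqrt_nonneg D]
    · have h2 := avg_lemma (by positivity) (hsq l hl1 hl2 u) (a := t - 1) (b := t)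
        (y := ‖gg T (l : ℂ) u t‖) (P := B) (by linarith) (by linarith) (norm_nonneg _) (by linarith)
        (by
          intro s hs
          have e : t = (t - s) + s := by ring
          rw [e, hgg]
          exact hB1 l hl1 hl2 (t - s) ⟨by linarith [hs.2], by linarith [hs.1]⟩ _)
      have h3 : ‖gg T (l : ℂ) u t‖ ^ 2 ≤ (B * Real.sqrt D * ‖u‖) ^ 2 := by
        rw [mul_pow, mul_pow, Real.sq_sqrt hD0]
        have : (t - (t - 1)) = 1 := by ring
        rw [this] at h2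
        linarith
      have h4 := (sq_le_sq₀ (norm_nonneg _) (by positivity)).mp h3
      refine h4.trans ?_
      apply mul_le_mul_of_nonneg_right _ (norm_nonneg _)
      rw [hL]
      nlinarith [Real.sqrt_nonneg D]
  have hfin : ∀ l : ℝ, ω < l → l ≤ ω + δ → ∀ t : ℝ, 0 < t → ∀ u : E,
      t * ‖gg T (l : ℂ) u t‖ ^ 2 ≤ L ^ 2 * (D * ‖u‖ ^ 2) := by
    intro l hl1 hl2 t ht u
    have h2 := avg_lemma (by positivity) (hsq l hl1 hl2 u) (a := 0) (b := t)
        (y := ‖gg T (l : ℂ) u t‖) (P := L) le_rfl ht.le (norm_nonneg _) hL0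
        (by
          intro s hs
          have e : t = (t - s) + s := by ring
          rw [e, hgg]
          exact hbd l hl1 hl2 (t - s) (by linarith [hs.2]) _)
    simpa using h2
  -- let l → ω
  have hlim : ∀ t : ℝ, 0 < t → ∀ u : E, t * ‖gg T (ω : ℂ) u t‖ ^ 2 ≤ L ^ 2 * (D * ‖u‖ ^ 2) := by
    intro t ht u
    have hc : Continuous (fun l : ℝ => t * ‖gg T (l : ℂ) u t‖ ^ 2) := by
      unfold gg; fun_prop
    have h1 : Tendsto (fun l : ℝ => t * ‖gg T (l : ℂ) u t‖ ^ 2) (𝓝[>] ω)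
        (𝓝 (t * ‖gg T (ω : ℂ) u t‖ ^ 2)) := (hc.tendsto ω).mono_left nhdsWithin_le_nhds
    apply le_of_tendsto h1
    filter_upwards [Ioo_mem_nhdsGT (show ω < ω + δ by linarith)] with l hl
    exact hfin l hl.1 hl.2.le t ht u
  -- contradiction
  obtain ⟨n, hn⟩ := exists_nat_gt (4 * (L ^ 2 * D))
  have hn0 : (0 : ℝ) < n := lt_of_le_of_lt (by positivity) hn
  have h1 : ‖T n‖ ≤ 1 / 2 * Real.exp (ω * n) := by
    apply ContinuousLinearMap.opNorm_le_bound _ (by positivity)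
    intro u
    have h2 := hlim n hn0 u
    have h3 : ‖gg T (ω : ℂ) u n‖ = Real.exp (-ω * n) * ‖T n u‖ := by
      unfold gg
      rw [norm_smul, norm_exp]; simp
    rw [h3] at h2
    have h4 : (Real.exp (-ω * n) * ‖T n u‖) ^ 2 ≤ (1 / 2 * ‖u‖) ^ 2 := by
      by_contra hcon
      push Not at hcon
      have h5 : n * (1 / 2 * ‖u‖) ^ 2 ≤ n * (Real.exp (-ω * n) * ‖T n u‖) ^ 2 :=
        mul_le_mul_of_nonneg_left hcon.le hn0.le
      rcases eq_or_ne ‖u‖ 0 with h0 | h0
      · rw [norm_eq_zero] at h0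
        rw [h0] at hcon
        simp at hcon
      · have h6 : 0 < ‖u‖ ^ 2 := by positivity
        nlinarith
    have h5 := (sq_le_sq₀ (by positivity) (by positivity)).mp h4
    have h6 : Real.exp (ω * n) * Real.exp (-ω * n) = 1 := by
      rw [← Real.exp_add]; simp
    calc ‖T n u‖ = Real.exp (ω * n) * (Real.exp (-ω * n) * ‖T n u‖) := by
          rw [← mul_assoc, h6, one_mul]
      _ ≤ Real.exp (ω * n) * (1 / 2 * ‖u‖) := mul_le_mul_of_nonneg_left h5 (Real.exp_pos _).le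
      _ = 1 / 2 * Real.exp (ω * n) * ‖u‖ := by ring
  have h2 := exp_om_le hT n
  rw [← hω] at h2
  have h3 := Real.exp_pos (ω * n)
  linarith

/-- Main theorem: the growth bound exists, it equals the spectral bound, and it is attained. -/
theorem main [Nontrivial H] (hK : IsOrderCone K) (hι : IsComplexification ι) (hT : IsGroup T)
    (hp : ∀ t, IsPositive K ι (T t)) :
    ∃ ω : ℝ, Tendsto (fun t : ℝ => t⁻¹ * Real.log ‖T t‖) atTop (𝓝 ω) ∧
      (ω : ℂ) ∈ genSpectrum T ∧ IsLUB (Complex.re '' genSpectrum T) ω := by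
  have : Nontrivial E := by
    obtain ⟨x, hx⟩ := exists_ne (0 : H)
    refine ⟨⟨ι x, 0, ?_⟩⟩
    intro h
    have := hι.norm_eq x
    rw [h, norm_zero] at this
    exact hx (norm_eq_zero.mp this.symm)
  have h1 := om_mem hK hι hT hp
  refine ⟨om hT, tendsto_growth hT, h1, ?_, ?_⟩
  · rintro _ ⟨z, hz, rfl⟩
    by_contra hcon
    push Not at hcon
    exact hz (inResolventSet hT hcon)
  · intro b hb
    exact hb ⟨_, h1, Complex.ofReal_re _⟩

end Pool.Agent.Q199.PG
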